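import Pool.Agent.R553.FC.Red

/-!
# MP_e24068_lc: deciding whether a finite language has a nontrivial factorization is NP-hard
-/

namespace Pool.Agent.Results.MP_e24068_lc.FactNPHard

open Pool.Agent.NPC Pool.Agent.R553.FC

/-- FACT is NP-hard: given a finite alphabet and an explicit list of words over it, it is NP-hard to
decide whether the finite language `L` listed has a factorization `L = L₁ L₂` into finite
languages with `L₁ ≠ {ε}` and `L₂ ≠ {ε}`. -/
theorem result : NPHardP FACT := hard.toNPHardP

end Pool.Agent.Results.MP_e24068_lc.FactNPHard
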